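import Pool.Agent.helper41.G5.SpecG

/-! Project d2:, gJMP: comparison of two maps. -/

set_option autoImplicit false

open Filter Topology MeasureTheory

namespace Pool.Agent.helper90.DH

open Pool.Agent.helper64.D2

/-- volume of the preimage of an interval. -/
theorem gJMP_vol (C : ℝ → ℝ) (hC : NL C) (a L : ℝ) (_hL : 0 ≤ L) (A : Set ℝ) (hA : A ⊆ Set.Icc a (a + L)) :
    volume (C ⁻¹' A) ≤ ENNReal.ofReal (10 / 9 * L) := by
  refine (Real.volume_le_diam _).trans ?_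
  apply Metric.ediam_le
  intro x hx y hy
  have hx' := hA hx
  have hy' := hA hy
  rw [edist_dist, Real.dist_eq]
  apply ENNReal.ofReal_le_ofReal
  rcases le_total x y with h | h
  · have h1 := (hC x y h).1
    rw [abs_sub_comm, abs_of_nonneg (by linarith)]
    have := hx'.1
    have := hy'.2
    linarith
  · have h1 := (hC y x h).1
    rw [abs_of_nonneg (by linarith)]
    have := hy'.1
    have := hx'.2
    linarith

theorem gJMP_meas (C : ℝ → ℝ) (hC : NL C) : Measurable C := by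
  have h : Monotone C := by
    intro x y hxy
    have := (hC x y hxy).1
    nlinarith
  exact h.measurable

/-- the integral over one cell. -/
theorem gJMP_cell (l h a b : ℝ) (hh : 0 < h) : ∫ x in Set.Ico l (l + h), (a + b * x) ^ 2 = h * ((a + b * (l + h / 2)) ^ 2 + (b * h) ^ 2 / 12) := by
  rw [integral_Ico_eq_integral_Ioc, ← intervalIntegral.integral_of_le (by linarith)]
  have hd : ∀ x ∈ Set.uIcc l (l + h), HasDerivAt (fun x : ℝ => a ^ 2 * x + a * b * x ^ 2 + b ^ 2 / 3 * x ^ 3) ((a + b * x) ^ 2) x := by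
    intro x _
    have h1 : HasDerivAt (fun x : ℝ => a ^ 2 * x + a * b * x ^ 2 + b ^ 2 / 3 * x ^ 3)
        (a ^ 2 * 1 + a * b * (((2 : ℕ) : ℝ) * x ^ (2 - 1)) + b ^ 2 / 3 * (((3 : ℕ) : ℝ) * x ^ (3 - 1))) x :=
      (((hasDerivAt_id' x).const_mul (a ^ 2)).add ((hasDerivAt_pow 2 x).const_mul (a * b))).add ((hasDerivAt_pow 3 x).const_mul (b ^ 2 / 3))
    have e : a ^ 2 * 1 + a * b * (((2 : ℕ) : ℝ) * x ^ (2 - 1)) + b ^ 2 / 3 * (((3 : ℕ) : ℝ) * x ^ (3 - 1)) = (a + b * x) ^ 2 := by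
      norm_num
      ring
    rw [e] at h1
    exact h1
  rw [intervalIntegral.integral_eq_sub_of_hasDerivAt hd (by apply Continuous.intervalIntegrable; fun_prop)]
  ring

/-- the data of one cell: `q` is the integral of the square. -/
theorem gJMP_data (s : ℕ) (f : ℝ → ℝ) (hf : PA (s + 1) f) (k : ℤ) : ∃ a b : ℝ, (∀ x ∈ cell (s + 1) k, f x = a + b * x) ∧
    (b / 2 ^ (s + 1)) ^ 2 ≤ 12 * ((2 : ℝ) ^ (s + 1) * ∫ x in cell (s + 1) k, f x ^ 2) ∧ ∀ x ∈ cell (s + 1) k, f x ^ 2 ≤ 4 * ((2 : ℝ) ^ (s + 1) * ∫ x in cell (s + 1) k, f x ^ 2) := by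
  obtain ⟨a, b, hab⟩ := hf k
  refine ⟨a, b, hab, ?_⟩
  set h : ℝ := 1 / 2 ^ (s + 1) with hh
  have hpos : (0 : ℝ) < 2 ^ (s + 1) := by positivity
  have hh0 : 0 < h := by positivity
  set l : ℝ := (k : ℝ) / 2 ^ (s + 1) with hl
  have hcell : cell (s + 1) k = Set.Ico l (l + h) := by
    unfold cell
    rw [hl, hh, add_div]
  have hint : ∫ x in cell (s + 1) k, f x ^ 2 = h * ((a + b * (l + h / 2)) ^ 2 + (b * h) ^ 2 / 12) := by
    rw [← gJMP_cell l h a b hh0, hcell]
    apply setIntegral_congr_fun measurableSet_Ico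
    intro x hx
    show f x ^ 2 = (a + b * x) ^ 2
    rw [hab x (by rw [hcell]; exact hx)]
  have hq : (2 : ℝ) ^ (s + 1) * ∫ x in cell (s + 1) k, f x ^ 2 = (a + b * (l + h / 2)) ^ 2 + (b * h) ^ 2 / 12 := by
    rw [hint, ← mul_assoc, hh, mul_one_div_cancel hpos.ne', one_mul]
  rw [hq]
  constructor
  · have e : b / 2 ^ (s + 1) = b * h := by rw [hh]; ring
    rw [e]
    nlinarith [sq_nonneg (a + b * (l + h / 2))]
  · intro x hx
    rw [hab x hx]
    rw [hcell] at hx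
    set A := a + b * (l + h / 2) with hA
    have e : a + b * x = A + b * (x - (l + h / 2)) := by rw [hA]; ring
    rw [e]
    have h1 : |x - (l + h / 2)| ≤ h / 2 := by
      rw [abs_le]
      constructor <;> linarith [hx.1, hx.2]
    have h2 : (b * (x - (l + h / 2))) ^ 2 ≤ (b * h) ^ 2 / 4 := by
      rw [mul_pow, mul_pow]
      have h3 : (x - (l + h / 2)) ^ 2 ≤ (h / 2) ^ 2 := sq_le_sq' (abs_le.1 h1).1 (abs_le.1 h1).2
      nlinarith [sq_nonneg b]
    -- (A + B)^2 ≤ 4 A^2 + (4/3) B^2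
    nlinarith [sq_nonneg (3 * A - b * (x - (l + h / 2)))]

theorem gJMP_ci (s : ℕ) (y : ℝ) : y ∈ cell s (ci s y) := by
  have hpos : (0 : ℝ) < 2 ^ s := by positivity
  unfold cell ci
  constructor
  · rw [div_le_iff₀ hpos, mul_comm]
    exact Int.floor_le _
  · rw [lt_div_iff₀ hpos, mul_comm]
    exact Int.lt_floor_add_one _

/-- cells outside `[0,1)` carry the zero function. -/
theorem gJMP_out (s : ℕ) (f : ℝ → ℝ) (hf : Su f) (k : ℤ) (hk : k ∉ Finset.Ico (0 : ℤ) (2 ^ (s + 1))) (y : ℝ) (hy : y ∈ cell (s + 1) k) : f y = 0 := by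
  apply hf
  intro h
  apply hk
  have hpos : (0 : ℝ) < 2 ^ (s + 1) := by positivity
  obtain ⟨h1, h2⟩ := hy
  rw [div_le_iff₀ hpos] at h1
  rw [lt_div_iff₀ hpos] at h2
  rw [Finset.mem_Ico]
  constructor
  · have h3 : (-1 : ℝ) < k := by nlinarith [h.1]
    have h4 : (-1 : ℤ) < k := by exact_mod_cast h3
    omega
  · have h3 : (k : ℝ) < 2 ^ (s + 1) := by nlinarith [h.2]
    exact_mod_cast h3

/-- integral of a finite sum of indicators. -/
theorem gJMP_int (K : Finset ℤ) (w : ℤ → ℝ) (hw : ∀ k, 0 ≤ w k) (A : ℤ → Set ℝ) (hA : ∀ k, MeasurableSet (A k)) (c : ℝ) (hc : 0 ≤ c)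
    (hv : ∀ k, volume (A k) ≤ ENNReal.ofReal c) :
    Integrable (fun x => ∑ k ∈ K, (A k).indicator (fun _ => w k) x) volume ∧
    (∫ x, ∑ k ∈ K, (A k).indicator (fun _ => w k) x) ≤ c * ∑ k ∈ K, w k := by
  have hfin : ∀ k, volume (A k) ≠ ⊤ := fun k => ne_top_of_le_ne_top ENNReal.ofReal_ne_top (hv k)
  have hi : ∀ k ∈ K, Integrable ((A k).indicator (fun _ : ℝ => w k)) volume := by
    intro k _
    exact (integrable_indicator_iff (hA k)).2 (integrableOn_const (hfin k))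
  refine ⟨integrable_finsetSum _ hi, ?_⟩
  rw [integral_finsetSum _ hi, Finset.mul_sum]
  apply Finset.sum_le_sum
  intro k _
  rw [integral_indicator (hA k), setIntegral_const, smul_eq_mul]
  apply mul_le_mul_of_nonneg_right _ (hw k)
  rw [Measure.real]
  exact ENNReal.toReal_le_of_le_ofReal hc (hv k)

theorem gJMP_le (K : Finset ℤ) (w : ℤ → ℝ) (hw : ∀ k, 0 ≤ w k) (A : ℤ → Set ℝ) (x : ℝ) (k : ℤ) (hk : k ∈ K) (hx : x ∈ A k) :
    w k ≤ ∑ k ∈ K, (A k).indicator (fun _ => w k) x := by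
  have h1 : w k = (A k).indicator (fun _ => w k) x := by rw [Set.indicator_of_mem hx]
  calc w k = (A k).indicator (fun _ => w k) x := h1
    _ ≤ _ := Finset.single_le_sum (f := fun k => (A k).indicator (fun _ => w k) x) (fun j _ => Set.indicator_nonneg (fun _ _ => hw j) x) hk

theorem gJMP_nn (K : Finset ℤ) (w : ℤ → ℝ) (hw : ∀ k, 0 ≤ w k) (A : ℤ → Set ℝ) (x : ℝ) :
    0 ≤ ∑ k ∈ K, (A k).indicator (fun _ => w k) x :=
  Finset.sum_nonneg (fun j _ => Set.indicator_nonneg (fun _ _ => hw j) x)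

theorem gJMP (hFNC : gFNC_stmt) : gJMP_stmt := by
  refine ⟨125, by norm_num, ?_⟩
  intro s η C C' f hη0 hη1 hC hC' hCC hf hSu
  obtain ⟨hfm, -, -, -, hL2, -, -⟩ := hFNC (s + 1) f C hf hSu hC
  have hmC := gJMP_meas C hC
  have hmC' := gJMP_meas C' hC'
  have hpos : (0 : ℝ) < 2 ^ (s + 1) := by positivity
  set K := Finset.Ico (0 : ℤ) (2 ^ (s + 1)) with hK
  set h : ℝ := 1 / 2 ^ (s + 1) with hh
  have hh0 : 0 < h := by positivity
  set δ : ℝ := 2 * η * h with hδ
  have hδ0 : 0 ≤ δ := by positivity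
  have hηs : η / 2 ^ s = δ := by
    rw [hδ, hh, pow_succ]
    field_simp
  set Q : ℤ → ℝ := fun k => (2 : ℝ) ^ (s + 1) * ∫ x in cell (s + 1) k, f x ^ 2 with hQ
  have hQ0 : ∀ k, 0 ≤ Q k := fun k => mul_nonneg hpos.le (integral_nonneg (fun x => sq_nonneg _))
  have hdata := fun k => gJMP_data s f hf k
  -- edges
  set Lk : ℤ → Set ℝ := fun k => Set.Icc ((k : ℝ) / 2 ^ (s + 1)) ((k : ℝ) / 2 ^ (s + 1) + δ) with hLk
  set Rk : ℤ → Set ℝ := fun k => Set.Icc ((k : ℝ) / 2 ^ (s + 1) + h - δ) ((k : ℝ) / 2 ^ (s + 1) + h - δ + δ) with hRk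
  have hedge : ∀ (k : ℤ) (y y' : ℝ), y ∈ cell (s + 1) k → y' ∉ cell (s + 1) k → |y' - y| ≤ δ → y ∈ Lk k ∨ y ∈ Rk k := by
    intro k y y' hy hy' hd
    obtain ⟨hy1, hy2⟩ := hy
    have e : ((k : ℝ) + 1) / 2 ^ (s + 1) = (k : ℝ) / 2 ^ (s + 1) + h := by rw [hh, add_div]
    rw [e] at hy2
    have hd' := abs_le.1 hd
    by_cases h1 : (k : ℝ) / 2 ^ (s + 1) ≤ y'
    · right
      have h2 : (k : ℝ) / 2 ^ (s + 1) + h ≤ y' := by
        by_contra h3
        push Not at h3
        apply hy'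
        exact ⟨h1, by rw [e]; exact h3⟩
      constructor
      · linarith [hd'.2]
      · linarith
    · left
      push Not at h1
      exact ⟨hy1, by linarith [hd'.1]⟩
  -- the weights
  set w1 : ℤ → ℝ := fun k => 48 * η * Q k with hw1
  set w2 : ℤ → ℝ := fun k => 8 * Q k with hw2
  have hw1n : ∀ k, 0 ≤ w1 k := fun k => by rw [hw1]; have := hQ0 k; positivity
  have hw2n : ∀ k, 0 ≤ w2 k := fun k => by rw [hw2]; have := hQ0 k; positivity
  set g1 : ℝ → ℝ := fun x => ∑ k ∈ K, (C ⁻¹' (cell (s + 1) k)).indicator (fun _ => w1 k) x with hg1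
  set g2 : ℝ → ℝ := fun x => ∑ k ∈ K, (C ⁻¹' (Lk k)).indicator (fun _ => w2 k) x with hg2
  set g3 : ℝ → ℝ := fun x => ∑ k ∈ K, (C ⁻¹' (Rk k)).indicator (fun _ => w2 k) x with hg3
  set g4 : ℝ → ℝ := fun x => ∑ k ∈ K, (C' ⁻¹' (Lk k)).indicator (fun _ => w2 k) x with hg4
  set g5 : ℝ → ℝ := fun x => ∑ k ∈ K, (C' ⁻¹' (Rk k)).indicator (fun _ => w2 k) x with hg5
  have hn1 : ∀ x, 0 ≤ g1 x := fun x => gJMP_nn K w1 hw1n _ x
  have hn2 : ∀ x, 0 ≤ g2 x := fun x => gJMP_nn K w2 hw2n _ x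
  have hn3 : ∀ x, 0 ≤ g3 x := fun x => gJMP_nn K w2 hw2n _ x
  have hn4 : ∀ x, 0 ≤ g4 x := fun x => gJMP_nn K w2 hw2n _ x
  have hn5 : ∀ x, 0 ≤ g5 x := fun x => gJMP_nn K w2 hw2n _ x
  have hpt : ∀ x, (f (C' x) - f (C x)) ^ 2 ≤ g1 x + g2 x + g3 x + g4 x + g5 x := by
    intro x
    have hcx := gJMP_ci (s + 1) (C x)
    have hcx' := gJMP_ci (s + 1) (C' x)
    set k := ci (s + 1) (C x)
    set k' := ci (s + 1) (C' x)
    have hdx : |C' x - C x| ≤ δ := by rw [← hηs]; exact hCC x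
    by_cases hin : C' x ∈ cell (s + 1) k
    · -- same cell
      by_cases hk : k ∈ K
      · obtain ⟨a, b, hab, hb, -⟩ := hdata k
        have h1 : (f (C' x) - f (C x)) ^ 2 ≤ w1 k := by
          rw [hab _ hin, hab _ hcx]
          have e : a + b * C' x - (a + b * C x) = b * (C' x - C x) := by ring
          rw [e, mul_pow]
          have h2 : (C' x - C x) ^ 2 ≤ δ ^ 2 := sq_le_sq' (abs_le.1 hdx).1 (abs_le.1 hdx).2
          have hb' : (b * h) ^ 2 ≤ 12 * Q k := by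
            have e2 : b * h = b / 2 ^ (s + 1) := by rw [hh]; ring
            rw [e2]
            exact hb
          calc b ^ 2 * (C' x - C x) ^ 2 ≤ b ^ 2 * δ ^ 2 := mul_le_mul_of_nonneg_left h2 (sq_nonneg _)
            _ = 4 * η ^ 2 * (b * h) ^ 2 := by rw [hδ]; ring
            _ ≤ 4 * η ^ 2 * (12 * Q k) := by gcongr
            _ ≤ 48 * η * Q k := by
                have h3 : η ^ 2 ≤ η := by nlinarith
                have := hQ0 k
                nlinarith
        have h2 := gJMP_le K w1 hw1n (fun k => C ⁻¹' (cell (s + 1) k)) x k hk hcx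
        have h3 : w1 k ≤ g1 x := h2
        linarith [hn2 x, hn3 x, hn4 x, hn5 x]
      · rw [gJMP_out s f hSu k hk _ hin, gJMP_out s f hSu k hk _ hcx]
        have : (0 - 0 : ℝ) ^ 2 = 0 := by norm_num
        rw [this]
        linarith [hn1 x, hn2 x, hn3 x, hn4 x, hn5 x]
    · -- different cells
      have hin' : C x ∉ cell (s + 1) k' := by
        intro h1
        apply hin
        have h2 : k = k' := by
          have h3 : ∀ (m : ℤ) (y : ℝ), y ∈ cell (s + 1) m → ci (s + 1) y = m := by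
            intro m y hy
            unfold ci
            rw [Int.floor_eq_iff]
            obtain ⟨h4, h5⟩ := hy
            rw [div_le_iff₀ hpos] at h4
            rw [lt_div_iff₀ hpos] at h5
            constructor <;> linarith
          exact (h3 k' _ h1)
        rw [h2]
        exact hcx'
      have hA : 2 * f (C x) ^ 2 ≤ g2 x + g3 x := by
        by_cases hk : k ∈ K
        · obtain ⟨a, b, hab, -, hb⟩ := hdata k
          have h1 : 2 * f (C x) ^ 2 ≤ w2 k := by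
            have := hb _ hcx
            show 2 * f (C x) ^ 2 ≤ 8 * Q k
            linarith
          rcases hedge k (C x) (C' x) hcx hin hdx with h2 | h2
          · have h3 : w2 k ≤ g2 x := gJMP_le K w2 hw2n (fun k => C ⁻¹' (Lk k)) x k hk h2
            linarith [hn3 x]
          · have h3 : w2 k ≤ g3 x := gJMP_le K w2 hw2n (fun k => C ⁻¹' (Rk k)) x k hk h2
            linarith [hn2 x]
        · rw [gJMP_out s f hSu k hk _ hcx]
          have : 2 * (0 : ℝ) ^ 2 = 0 := by norm_num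
          rw [this]
          linarith [hn2 x, hn3 x]
      have hB : 2 * f (C' x) ^ 2 ≤ g4 x + g5 x := by
        by_cases hk : k' ∈ K
        · obtain ⟨a, b, hab, -, hb⟩ := hdata k'
          have h1 : 2 * f (C' x) ^ 2 ≤ w2 k' := by
            have := hb _ hcx'
            show 2 * f (C' x) ^ 2 ≤ 8 * Q k'
            linarith
          rcases hedge k' (C' x) (C x) hcx' hin' (by rw [abs_sub_comm]; exact hdx) with h2 | h2
          · have h3 : w2 k' ≤ g4 x := gJMP_le K w2 hw2n (fun k => C' ⁻¹' (Lk k)) x k' hk h2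
            linarith [hn5 x]
          · have h3 : w2 k' ≤ g5 x := gJMP_le K w2 hw2n (fun k => C' ⁻¹' (Rk k)) x k' hk h2
            linarith [hn4 x]
        · rw [gJMP_out s f hSu k' hk _ hcx']
          have : 2 * (0 : ℝ) ^ 2 = 0 := by norm_num
          rw [this]
          linarith [hn4 x, hn5 x]
      have h5 : (f (C' x) - f (C x)) ^ 2 ≤ 2 * f (C x) ^ 2 + 2 * f (C' x) ^ 2 := by nlinarith [sq_nonneg (f (C' x) + f (C x))]
      linarith [hn1 x]
  -- integrals
  have hcm : ∀ k : ℤ, MeasurableSet (cell (s + 1) k) := fun k => measurableSet_Ico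
  have hcv : ∀ k : ℤ, volume (C ⁻¹' (cell (s + 1) k)) ≤ ENNReal.ofReal (10 / 9 * h) := by
    intro k
    apply gJMP_vol C hC ((k : ℝ) / 2 ^ (s + 1)) h hh0.le
    intro y hy
    refine ⟨hy.1, ?_⟩
    have h1 := hy.2
    rw [add_div] at h1
    exact h1.le
  obtain ⟨i1, b1⟩ := gJMP_int K w1 hw1n (fun k => C ⁻¹' (cell (s + 1) k)) (fun k => hmC (hcm k)) (10 / 9 * h) (by positivity) hcv
  obtain ⟨i2, b2⟩ := gJMP_int K w2 hw2n (fun k => C ⁻¹' (Lk k)) (fun k => hmC measurableSet_Icc) (10 / 9 * δ) (by positivity)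
    (fun k => gJMP_vol C hC _ δ hδ0 _ (le_refl _))
  obtain ⟨i3, b3⟩ := gJMP_int K w2 hw2n (fun k => C ⁻¹' (Rk k)) (fun k => hmC measurableSet_Icc) (10 / 9 * δ) (by positivity)
    (fun k => gJMP_vol C hC _ δ hδ0 _ (le_refl _))
  obtain ⟨i4, b4⟩ := gJMP_int K w2 hw2n (fun k => C' ⁻¹' (Lk k)) (fun k => hmC' measurableSet_Icc) (10 / 9 * δ) (by positivity)
    (fun k => gJMP_vol C' hC' _ δ hδ0 _ (le_refl _))
  obtain ⟨i5, b5⟩ := gJMP_int K w2 hw2n (fun k => C' ⁻¹' (Rk k)) (fun k => hmC' measurableSet_Icc) (10 / 9 * δ) (by positivity)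
    (fun k => gJMP_vol C' hC' _ δ hδ0 _ (le_refl _))
  have i12 : Integrable (fun x => g1 x + g2 x) volume := i1.add i2
  have i123 : Integrable (fun x => g1 x + g2 x + g3 x) volume := i12.add i3
  have i1234 : Integrable (fun x => g1 x + g2 x + g3 x + g4 x) volume := i123.add i4
  have i12345 : Integrable (fun x => g1 x + g2 x + g3 x + g4 x + g5 x) volume := i1234.add i5
  have hmain : nsq (fun x => f (C' x) - f (C x)) ≤ ∫ x, (g1 x + g2 x + g3 x + g4 x + g5 x) := by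
    unfold nsq
    exact integral_mono_of_nonneg (Eventually.of_forall fun x => sq_nonneg _) i12345 (Eventually.of_forall hpt)
  have hsplit : ∫ x, (g1 x + g2 x + g3 x + g4 x + g5 x) = (∫ x, g1 x) + (∫ x, g2 x) + (∫ x, g3 x) + (∫ x, g4 x) + ∫ x, g5 x := by
    rw [integral_add i1234 i5, integral_add i123 i4, integral_add i12 i3, integral_add i1 i2]
  -- sum of the integrals over the cells
  have hsum : ∑ k ∈ K, Q k ≤ 2 ^ (s + 1) * nsq f := by
    have h2 : ∑ k ∈ K, Q k = 2 ^ (s + 1) * ∑ k ∈ K, ∫ x in cell (s + 1) k, f x ^ 2 := by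
      rw [Finset.mul_sum]
    rw [h2]
    apply mul_le_mul_of_nonneg_left _ hpos.le
    have hint : Integrable (fun x => f x ^ 2) volume := hL2.integrable_sq
    have hdisj : Set.Pairwise (↑K) (Function.onFun Disjoint (fun k : ℤ => cell (s + 1) k)) := by
      intro i _ j _ hij
      rw [Function.onFun, Set.disjoint_left]
      intro y hi hj
      apply hij
      obtain ⟨h4, h5⟩ := hi
      obtain ⟨h6, h7⟩ := hj
      rw [div_le_iff₀ hpos] at h4 h6
      rw [lt_div_iff₀ hpos] at h5 h7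
      have h8 : (i : ℝ) < j + 1 := by linarith
      have h9 : (j : ℝ) < i + 1 := by linarith
      have h10 : i < j + 1 := by exact_mod_cast h8
      have h11 : j < i + 1 := by exact_mod_cast h9
      omega
    rw [← integral_biUnion_finset K (fun k _ => hcm k) hdisj (fun k _ => hint.integrableOn)]
    exact setIntegral_le_integral hint (Eventually.of_forall fun x => sq_nonneg _)
  have hsum1 : ∑ k ∈ K, w1 k = 48 * η * ∑ k ∈ K, Q k := by rw [Finset.mul_sum]
  have hsum2 : ∑ k ∈ K, w2 k = 8 * ∑ k ∈ K, Q k := by rw [Finset.mul_sum]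
  rw [hsum1] at b1
  rw [hsum2] at b2 b3 b4 b5
  have hhs : h * ∑ k ∈ K, Q k ≤ nsq f := by
    calc h * ∑ k ∈ K, Q k ≤ h * (2 ^ (s + 1) * nsq f) := mul_le_mul_of_nonneg_left hsum hh0.le
      _ = nsq f := by rw [hh]; field_simp
  have hη' : η * (h * ∑ k ∈ K, Q k) ≤ η * nsq f := mul_le_mul_of_nonneg_left hhs hη0
  have hnf : 0 ≤ η * nsq f := mul_nonneg hη0 (integral_nonneg fun x => sq_nonneg _)
  calc nsq (fun x => f (C' x) - f (C x)) ≤ _ := hmain
    _ = _ := hsplit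
    _ ≤ 10 / 9 * h * (48 * η * ∑ k ∈ K, Q k) + 10 / 9 * δ * (8 * ∑ k ∈ K, Q k) + 10 / 9 * δ * (8 * ∑ k ∈ K, Q k)
        + 10 / 9 * δ * (8 * ∑ k ∈ K, Q k) + 10 / 9 * δ * (8 * ∑ k ∈ K, Q k) := by gcongr
    _ = (1120 / 9) * (η * (h * ∑ k ∈ K, Q k)) := by rw [hδ]; ring
    _ ≤ 125 * η * nsq f := by nlinarith

end Pool.Agent.helper90.DH
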