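import Pool.Agent.helper41.G5.SpecG

/-! Project d2:, gWDB: bounds of the digit shift. -/

set_option autoImplicit false

open Filter Topology MeasureTheory

namespace Pool.Agent.helper90.DH

open Pool.Agent.helper64.D2

/-- the set of the indices with nonzero bump. -/
noncomputable def gWDB_F (S : Finset ℕ) (t : ℝ) : Finset ℕ := S.filter (fun l : ℕ => -1 < t - l ∧ t - l < 2)

theorem gWDB_card (S : Finset ℕ) (t : ℝ) : (gWDB_F S t).card ≤ 3 := by
  classical
  have h1 : (gWDB_F S t).card = ((gWDB_F S t).image (fun l : ℕ => (l : ℤ))).card := by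
    rw [Finset.card_image_of_injective _ (fun a b h => by exact_mod_cast h)]
  rw [h1]
  have h2 : (gWDB_F S t).image (fun l : ℕ => (l : ℤ)) ⊆ Finset.Icc (⌊t⌋ - 1) (⌊t⌋ + 1) := by
    intro k hk
    rw [Finset.mem_image] at hk
    obtain ⟨l, hl, rfl⟩ := hk
    rw [gWDB_F, Finset.mem_filter] at hl
    obtain ⟨-, h3, h4⟩ := hl
    have h5 := Int.floor_le t
    have h6 := Int.lt_floor_add_one t
    rw [Finset.mem_Icc]
    constructor
    · have h7 : ((⌊t⌋ - 2 : ℤ) : ℝ) < ((l : ℤ) : ℝ) := by push_cast; linarith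
      have h8 : ⌊t⌋ - 2 < (l : ℤ) := by exact_mod_cast h7
      omega
    · have h7 : ((l : ℤ) : ℝ) < ((⌊t⌋ + 2 : ℤ) : ℝ) := by push_cast; linarith
      have h8 : (l : ℤ) < ⌊t⌋ + 2 := by exact_mod_cast h7
      omega
  calc _ ≤ (Finset.Icc (⌊t⌋ - 1) (⌊t⌋ + 1)).card := Finset.card_le_card h2
    _ = 3 := by rw [Int.card_Icc]; have : ⌊t⌋ + 1 + 1 - (⌊t⌋ - 1) = 3 := by ring
                rw [this]; rfl

theorem gWDB_lip (β : ℝ → ℝ) (hβ : BUMP β) : ∃ K : ℝ, 0 ≤ K ∧ ∀ a b : ℝ, |β a - β b| ≤ K * |a - b| := by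
  obtain ⟨hc, -, -, h0⟩ := hβ
  have hd : Differentiable ℝ β := hc.differentiable (by norm_num)
  have hcd : Continuous (deriv β) := hc.continuous_deriv (by norm_num)
  obtain ⟨K, hK⟩ := (isCompact_Icc (a := (-1 : ℝ)) (b := 2)).exists_bound_of_continuousOn hcd.continuousOn
  have hK0 : 0 ≤ K := (norm_nonneg _).trans (hK 0 (by constructor <;> norm_num))
  refine ⟨K, hK0, fun a b => ?_⟩
  have hb : ∀ x : ℝ, ‖deriv β x‖ ≤ K := by
    intro x
    by_cases hx : x ∈ Set.Icc (-1 : ℝ) 2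
    · exact hK x hx
    · have h1 : β =ᶠ[𝓝 x] fun _ => 0 := by
        have h2 : (Set.Icc (-1 : ℝ) 2)ᶜ ∈ 𝓝 x := isClosed_Icc.isOpen_compl.mem_nhds hx
        filter_upwards [h2] with y hy
        apply h0
        intro h3
        exact hy ⟨h3.1.le, h3.2.le⟩
      rw [h1.deriv_eq]
      simpa using hK0
  exact Convex.norm_image_sub_le_of_norm_deriv_le (f := β) (C := K) (s := Set.univ) (x := b) (y := a)
    (fun z _ => hd z) (fun z _ => hb z) convex_univ trivial trivial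

theorem gWDB : gWDB_stmt := by
  classical
  intro β hβ
  obtain ⟨K', hK'0, hK'⟩ := gWDB_lip β hβ
  obtain ⟨-, hb01, -, hb0⟩ := hβ
  refine ⟨max 1 (6 * K'), le_max_left _ _, ?_⟩
  intro u N τ ω hτ hN hω x y
  have hNpos : (0 : ℝ) < N := by exact_mod_cast hN
  have hc : ∀ l, 0 ≤ (ω l : ℝ) / N ∧ (ω l : ℝ) / N ≤ 1 := by
    intro l
    refine ⟨by positivity, ?_⟩
    rw [div_le_one hNpos]
    exact_mod_cast hω l
  set S := Finset.Ico (2 ^ (u - 3) + 2) (7 * 2 ^ (u - 3) - 2) with hS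
  have hz : ∀ (z : ℝ) (l : ℕ), l ∈ S → l ∉ gWDB_F S (2 ^ u * z) → β (2 ^ u * z - l) = 0 := by
    intro z l hl hn
    apply hb0
    intro h
    apply hn
    rw [gWDB_F, Finset.mem_filter]
    exact ⟨hl, h.1, h.2⟩
  have hW : ∀ z, Wd β u N τ ω z = τ * ∑ l ∈ S, ((ω l : ℝ) / N) * β (2 ^ u * z - l) := fun z => rfl
  constructor
  · rw [hW, abs_mul, abs_of_nonneg hτ, mul_comm 3 τ]
    apply mul_le_mul_of_nonneg_left _ hτ
    have h1 : ∑ l ∈ S, ((ω l : ℝ) / N) * β (2 ^ u * x - l) = ∑ l ∈ gWDB_F S (2 ^ u * x), ((ω l : ℝ) / N) * β (2 ^ u * x - l) := by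
      symm
      apply Finset.sum_subset (Finset.filter_subset _ _)
      intro l hl hn
      rw [hz x l hl hn, mul_zero]
    rw [h1]
    calc _ ≤ ∑ l ∈ gWDB_F S (2 ^ u * x), |((ω l : ℝ) / N) * β (2 ^ u * x - l)| := Finset.abs_sum_le_sum_abs _ _
      _ ≤ ∑ l ∈ gWDB_F S (2 ^ u * x), (1 : ℝ) := by
          apply Finset.sum_le_sum
          intro l _
          rw [abs_mul, abs_of_nonneg (hc l).1, abs_of_nonneg (hb01 _).1]
          exact mul_le_one₀ (hc l).2 (hb01 _).1 (hb01 _).2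
      _ = ((gWDB_F S (2 ^ u * x)).card : ℝ) := by rw [Finset.sum_const, nsmul_eq_mul, mul_one]
      _ ≤ 3 := by exact_mod_cast gWDB_card S _
  · rw [hW, hW, ← mul_sub, ← Finset.sum_sub_distrib, abs_mul, abs_of_nonneg hτ]
    set D := |x - y| with hD
    have hD0 : 0 ≤ D := abs_nonneg _
    have h1 : ∑ l ∈ S, (((ω l : ℝ) / N) * β (2 ^ u * x - l) - ((ω l : ℝ) / N) * β (2 ^ u * y - l)) =
        ∑ l ∈ gWDB_F S (2 ^ u * x) ∪ gWDB_F S (2 ^ u * y), (((ω l : ℝ) / N) * β (2 ^ u * x - l) - ((ω l : ℝ) / N) * β (2 ^ u * y - l)) := by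
      symm
      apply Finset.sum_subset (Finset.union_subset (Finset.filter_subset _ _) (Finset.filter_subset _ _))
      intro l hl hn
      rw [Finset.mem_union, not_or] at hn
      rw [hz x l hl hn.1, hz y l hl hn.2]
      ring
    rw [h1]
    have h2 : |∑ l ∈ gWDB_F S (2 ^ u * x) ∪ gWDB_F S (2 ^ u * y), (((ω l : ℝ) / N) * β (2 ^ u * x - l) - ((ω l : ℝ) / N) * β (2 ^ u * y - l))|
        ≤ 6 * (K' * (2 ^ u * D)) := by
      calc _ ≤ ∑ l ∈ gWDB_F S (2 ^ u * x) ∪ gWDB_F S (2 ^ u * y), |((ω l : ℝ) / N) * β (2 ^ u * x - l) - ((ω l : ℝ) / N) * β (2 ^ u * y - l)| := Finset.abs_sum_le_sum_abs _ _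
        _ ≤ ∑ l ∈ gWDB_F S (2 ^ u * x) ∪ gWDB_F S (2 ^ u * y), K' * (2 ^ u * D) := by
            apply Finset.sum_le_sum
            intro l _
            rw [← mul_sub, abs_mul, abs_of_nonneg (hc l).1]
            have h3 := hK' (2 ^ u * x - l) (2 ^ u * y - l)
            have h4 : (2 ^ u * x - l) - (2 ^ u * y - l) = 2 ^ u * (x - y) := by ring
            rw [h4, abs_mul, abs_of_pos (show (0 : ℝ) < 2 ^ u by positivity)] at h3
            calc _ ≤ 1 * (K' * (2 ^ u * D)) := mul_le_mul (hc l).2 h3 (abs_nonneg _) (by norm_num)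
              _ = _ := one_mul _
        _ = ((gWDB_F S (2 ^ u * x) ∪ gWDB_F S (2 ^ u * y)).card : ℝ) * (K' * (2 ^ u * D)) := by rw [Finset.sum_const, nsmul_eq_mul]
        _ ≤ 6 * (K' * (2 ^ u * D)) := by
            apply mul_le_mul_of_nonneg_right _ (by positivity)
            have h5 := Finset.card_union_le (gWDB_F S (2 ^ u * x)) (gWDB_F S (2 ^ u * y))
            have h6 := gWDB_card S (2 ^ u * x)
            have h7 := gWDB_card S (2 ^ u * y)
            have h8 : (gWDB_F S (2 ^ u * x) ∪ gWDB_F S (2 ^ u * y)).card ≤ 6 := by omega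
            exact_mod_cast h8
    calc _ ≤ τ * (6 * (K' * (2 ^ u * D))) := mul_le_mul_of_nonneg_left h2 hτ
      _ = (6 * K') * (τ * (2 ^ u * D)) := by ring
      _ ≤ max 1 (6 * K') * (τ * (2 ^ u * D)) := by gcongr; exact le_max_right _ _
      _ = _ := by ring

end Pool.Agent.helper90.DH
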